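import Pool.Agent.Helper45.CF.GoalsA
import Pool.Agent.Helper39.CR.Parts6
import Pool.Agent.Helper39.CR.ISO

/-!
# Project CF, packet CIR: the circle
-/

open scoped ComplexOrder ZeroAtInfty Topology ComplexConjugate
open TopologicalSpace Filter

namespace Pool.Agent.Helper53.CF

open Pool.Agent.Helper34.CAR Pool.Agent.Helper39.CR Pool.Agent.Helper39.Uct
open Pool.Agent.Helper45.CF

noncomputable section

/-- The parametrization of the circle. -/
def cc : C(unitInterval, Circle) where
  toFun t := Circle.exp (2 * Real.pi * t)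
  continuous_toFun := by fun_prop

theorem cc_apply (t : unitInterval) : cc t = Circle.exp (2 * Real.pi * t) := rfl

theorem cc_zero : cc 0 = 1 := by
  rw [cc_apply]
  simp

theorem cc_one : cc 1 = 1 := by
  rw [cc_apply]
  simp

theorem cc_surj : Function.Surjective cc := by
  intro z
  have hpi := Real.pi_pos
  have h1 : Circle.exp (Complex.arg z) = z := Circle.exp_arg z
  have h2 := Complex.neg_pi_lt_arg (z : ℂ)
  have h3 := Complex.arg_le_pi (z : ℂ)
  by_cases h : 0 ≤ Complex.arg (z : ℂ)
  · refine ⟨⟨Complex.arg z / (2 * Real.pi), ?_, ?_⟩, ?_⟩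
    · positivity
    · rw [div_le_one (by positivity)]
      linarith
    · rw [cc_apply]
      show Circle.exp (2 * Real.pi * (Complex.arg z / (2 * Real.pi))) = z
      rw [mul_div_cancel₀ _ (by positivity)]
      exact h1
  · push Not at h
    refine ⟨⟨(Complex.arg z + 2 * Real.pi) / (2 * Real.pi), ?_, ?_⟩, ?_⟩
    · apply div_nonneg
      · linarith
      · positivity
    · rw [div_le_one (by positivity)]
      linarith
    · rw [cc_apply]
      show Circle.exp (2 * Real.pi * ((Complex.arg z + 2 * Real.pi) / (2 * Real.pi))) = z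
      rw [mul_div_cancel₀ _ (by positivity), Circle.exp_add, h1, Circle.exp_two_pi, mul_one]

theorem cc_eq {t t' : unitInterval} (h : cc t = cc t') :
    t = t' ∨ (t = 0 ∧ t' = 1) ∨ (t = 1 ∧ t' = 0) := by
  rw [cc_apply, cc_apply, Circle.exp_eq_exp] at h
  obtain ⟨m, hm⟩ := h
  have hpi := Real.pi_pos
  have h1 : (t : ℝ) = t' + m := by
    have h2 : (2 * Real.pi) * ((t : ℝ) - t' - m) = 0 := by linear_combination hm
    rcases mul_eq_zero.1 h2 with h3 | h3
    · exfalso
      linarith
    · linarith
  have ht0 := t.2.1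
  have ht1 := t.2.2
  have ht0' := t'.2.1
  have ht1' := t'.2.2
  have hm1 : (m : ℝ) ≤ 1 := by linarith
  have hm2 : (-1 : ℝ) ≤ m := by linarith
  have hm1' : m ≤ 1 := by exact_mod_cast hm1
  have hm2' : -1 ≤ m := by exact_mod_cast hm2
  have hm3 : m = 0 ∨ m = 1 ∨ m = -1 := by omega
  rcases hm3 with rfl | rfl | rfl
  · left
    apply Subtype.ext
    rw [h1]
    simp
  · right
    right
    push_cast at h1
    constructor
    · apply Subtype.ext
      show (t : ℝ) = 1
      linarith
    · apply Subtype.ext
      show (t' : ℝ) = 0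
      linarith
  · right
    left
    push_cast at h1
    constructor
    · apply Subtype.ext
      show (t : ℝ) = 0
      linarith
    · apply Subtype.ext
      show (t' : ℝ) = 1
      linarith

theorem ex_desc {A : Type} [NonUnitalCStarAlgebra A] (f : Sus A) :
    ∃ F : C(Circle, A), ∀ t, F (cc t) = f.1 t := by
  refine quo cc cc_surj f.1 ?_
  intro p p' h
  rcases cc_eq h with h | ⟨h, h'⟩ | ⟨h, h'⟩
  · rw [h]
  · rw [h, h', f.2.1, f.2.2]
  · rw [h, h', f.2.1, f.2.2]

/-- The descent to the circle. -/
def desc {A : Type} [NonUnitalCStarAlgebra A] (f : Sus A) : C(Circle, A) := (ex_desc f).choose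

theorem desc_spec {A : Type} [NonUnitalCStarAlgebra A] (f : Sus A) (t : unitInterval) :
    desc f (cc t) = f.1 t := (ex_desc f).choose_spec t

theorem desc_uniq {A : Type} [NonUnitalCStarAlgebra A] (F G : C(Circle, A))
    (h : ∀ t, F (cc t) = G (cc t)) : F = G := by
  ext z
  obtain ⟨t, rfl⟩ := cc_surj z
  exact h t

/-- The descent as a *-homomorphism. -/
def uu (A : Type) [NonUnitalCStarAlgebra A] : Sus A →⋆ₙₐ[ℂ] C(Circle, A) where
  toFun := desc
  map_smul' c f := by
    apply desc_uniq
    intro t
    show desc (c • f) (cc t) = c • desc f (cc t)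
    rw [desc_spec, desc_spec]
    rfl
  map_zero' := by
    apply desc_uniq
    intro t
    rw [desc_spec]
    rfl
  map_add' f g := by
    apply desc_uniq
    intro t
    show desc (f + g) (cc t) = desc f (cc t) + desc g (cc t)
    rw [desc_spec, desc_spec, desc_spec]
    rfl
  map_mul' f g := by
    apply desc_uniq
    intro t
    show desc (f * g) (cc t) = desc f (cc t) * desc g (cc t)
    rw [desc_spec, desc_spec, desc_spec]
    rfl
  map_star' f := by
    apply desc_uniq
    intro t
    show desc (star f) (cc t) = star (desc f (cc t))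
    rw [desc_spec, desc_spec]
    rfl

theorem uu_apply (A : Type) [NonUnitalCStarAlgebra A] (f : Sus A) (t : unitInterval) :
    uu A f (cc t) = f.1 t := desc_spec f t

/-- Evaluation at `1`. -/
def qq (A : Type) [NonUnitalCStarAlgebra A] : C(Circle, A) →⋆ₙₐ[ℂ] A where
  toFun f := f 1
  map_smul' _ _ := rfl
  map_zero' := rfl
  map_add' _ _ := rfl
  map_mul' _ _ := rfl
  map_star' _ := rfl

theorem qq_apply (A : Type) [NonUnitalCStarAlgebra A] (f : C(Circle, A)) : qq A f = f 1 := rfl

theorem uu_inj (A : Type) [NonUnitalCStarAlgebra A] : Function.Injective (uu A) := by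
  intro f g h
  apply Subtype.ext
  ext t
  rw [← uu_apply, ← uu_apply, h]

theorem qq_surj (A : Type) [NonUnitalCStarAlgebra A] : Function.Surjective (qq A) := by
  intro a
  exact ⟨ContinuousMap.const _ a, rfl⟩

theorem ker_qq (A : Type) [NonUnitalCStarAlgebra A] (f : C(Circle, A)) :
    qq A f = 0 ↔ f ∈ Set.range (uu A) := by
  constructor
  · intro h
    refine ⟨⟨pull A cc f, ?_, ?_⟩, ?_⟩
    · rw [pull_apply, cc_zero]
      exact h
    · rw [pull_apply, cc_one]
      exact h
    · apply desc_uniq
      intro t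
      rw [uu_apply, pull_apply]
  · rintro ⟨g, rfl⟩
    rw [qq_apply, ← cc_zero, uu_apply]
    exact g.2.1

theorem t : S_CIR := by
  intro T A _ _ hA
  have hS : T.Zero (Sus A) := by
    intro i x
    obtain ⟨φ, hφ⟩ := tsz2 p_TZ T i A
    apply hφ.1
    rw [map_zero]
    exact hA _ _
  intro i x
  have hb := bij_of_ext T i (uu A) (qq A) (uu_inj A) (qq_surj A) (ker_qq A) hS
  obtain ⟨y, rfl⟩ := hb.2 x
  rw [hA i y, map_zero]

end

end Pool.Agent.Helper53.CF
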